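import Pool.Graph.R_seed8.TH227.TM.TRep
import Pool.Agent.H655.MC.Atlas

/-!
The manifold of a tree is homeomorphic to an open subset of the Euclidean space.
-/

open Set Filter Topology

namespace Pool.Agent.H655.OS

open Pool.Agent.TH227.TM Pool.Agent.H655.MC

variable {E : Type} [NormedAddCommGroup E] [InnerProductSpace ℝ E]

/-- The developing map. -/
noncomputable def dev (P : Fr E) : List ℕ → E → E
  | [], x => x
  | a :: s, x => dev P s (P.ctr (a + 1) + nv x)

variable {P : Fr E} {T : Set (List ℕ)}

theorem dev_append (s t : List ℕ) (x : E) : dev P (s ++ t) x = dev P t (dev P s x) := by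
  induction s generalizing x with
  | nil => rfl
  | cons a s ih => exact ih _

theorem ball_norm {a : ℕ} {x : E} (h : ‖x - P.ctr (a + 1)‖ < 2) : 3 < ‖x‖ := by
  have h1 := P.norm_ctr (a + 1)
  have h2 : ‖P.ctr (a + 1)‖ ≤ ‖x‖ + ‖x - P.ctr (a + 1)‖ := by
    have : P.ctr (a + 1) = x - (x - P.ctr (a + 1)) := by abel
    calc ‖P.ctr (a + 1)‖ = ‖x - (x - P.ctr (a + 1))‖ := by rw [← this]
      _ ≤ _ := norm_sub_le _ _
  rw [h1] at h2
  push_cast at h2
  have h3 : (0 : ℝ) ≤ a := by positivity
  linarith

theorem step_ball {a : ℕ} {x : E} (h : 1 / 2 < ‖x‖) :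
    ‖(P.ctr (a + 1) + nv x) - P.ctr (a + 1)‖ < 2 := by
  rw [add_sub_cancel_left, nv_norm]
  have := inv_strictAnti₀ (by norm_num : (0 : ℝ) < 1 / 2) h
  simpa using this

/-- The regular region. -/
theorem dev_reg (s : List ℕ) {x : E} (h : 1 / 2 < ‖x‖) : 1 / 2 < ‖dev P s x‖ := by
  induction s generalizing x with
  | nil => exact h
  | cons a s ih =>
    refine ih ?_
    have := ball_norm (step_ball (P := P) (a := a) h)
    linarith

theorem dev_ball (s : List ℕ) (a : ℕ) {x : E} (h : 1 / 2 < ‖x‖) :
    ‖dev P (s ++ [a]) x - P.ctr (a + 1)‖ < 2 := by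
  rw [dev_append]
  exact step_ball (dev_reg s h)

theorem step_inj {a : ℕ} {x y : E} (hx : x ≠ 0) (hy : y ≠ 0)
    (h : P.ctr (a + 1) + nv x = P.ctr (a + 1) + nv y) : x = y := by
  have h1 := add_left_cancel h
  rw [← nv_nv hx, h1, nv_nv hy]

theorem reg_ne {x : E} (h : 1 / 2 < ‖x‖) : x ≠ 0 := ann_ne h

theorem dev_inj (s : List ℕ) {x y : E} (hx : 1 / 2 < ‖x‖) (hy : 1 / 2 < ‖y‖)
    (h : dev P s x = dev P s y) : x = y := by
  induction s generalizing x y with
  | nil => exact h
  | cons a s ih =>
    have h1 := ball_norm (step_ball (P := P) (a := a) hx)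
    have h2 := ball_norm (step_ball (P := P) (a := a) hy)
    exact step_inj (reg_ne hx) (reg_ne hy) (ih (by linarith) (by linarith) h)

/-- The domain on which the developing map is used. -/
def reg : List ℕ → Set E
  | [] => univ
  | _ :: _ => {x | 1 / 2 < ‖x‖}

omit [InnerProductSpace ℝ E] in
theorem reg_open (s : List ℕ) : IsOpen (reg s : Set E) := by
  cases s with
  | nil => exact isOpen_univ
  | cons a s => exact isOpen_lt continuous_const continuous_norm

theorem dm_reg {s : List ℕ} : Dm P T s ⊆ reg s := by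
  intro x hx
  cases s with
  | nil => exact mem_univ _
  | cons a s => exact hx.1 (by simp)

theorem nv_cont {x : E} (h : x ≠ 0) : ContinuousAt (nv : E → E) x := (nv_smooth h).continuousAt

theorem OX_step (a : ℕ) : OX (fun x => P.ctr (a + 1) + nv x) {x : E | 1 / 2 < ‖x‖} := by
  have ho : IsOpen {x : E | 1 / 2 < ‖x‖} := isOpen_lt continuous_const continuous_norm
  refine ⟨ho, ?_, ?_, ?_⟩
  · intro x hx
    exact (continuousAt_const.add (nv_cont (reg_ne hx))).continuousWithinAt
  · intro x hx y hy h
    exact step_inj (reg_ne hx) (reg_ne hy) h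
  · intro V hV hVo
    have h1 : IsOpen ({0}ᶜ ∩ (nv : E → E) ⁻¹' V) := by
      have hc : ContinuousOn (nv : E → E) {0}ᶜ := fun x hx =>
        (nv_cont hx).continuousWithinAt
      exact hc.isOpen_inter_preimage isOpen_compl_singleton hVo
    have h2 : (fun x => P.ctr (a + 1) + nv x) '' V =
        (fun y => y - P.ctr (a + 1)) ⁻¹' ({0}ᶜ ∩ (nv : E → E) ⁻¹' V) := by
      ext y
      constructor
      · rintro ⟨x, hx, rfl⟩
        have hx0 : x ≠ 0 := reg_ne (hV hx)
        show P.ctr (a + 1) + nv x - P.ctr (a + 1) ∈ ({0}ᶜ ∩ (nv : E → E) ⁻¹' V : Set E)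
        rw [add_sub_cancel_left]
        refine ⟨?_, ?_⟩
        · intro h0
          have h3 : nv x = 0 := h0
          have h4 := nv_norm x
          rw [h3, norm_zero] at h4
          have h5 := inv_eq_zero.1 h4.symm
          exact hx0 (norm_eq_zero.1 h5)
        · show nv (nv x) ∈ V
          rw [nv_nv hx0]
          exact hx
      · rintro ⟨h0, hy⟩
        refine ⟨nv (y - P.ctr (a + 1)), hy, ?_⟩
        show P.ctr (a + 1) + nv (nv (y - P.ctr (a + 1))) = y
        have h0' : y - P.ctr (a + 1) ≠ 0 := h0
        rw [nv_nv h0']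
        exact add_sub_cancel _ _
    rw [h2]
    exact h1.preimage (continuous_id.sub continuous_const)

theorem OX_dev (s : List ℕ) : OX (dev P s) (reg s) := by
  induction s with
  | nil =>
    refine ⟨isOpen_univ, continuousOn_id, fun x _ y _ h => h, ?_⟩
    intro V _ hV
    have : dev P [] '' V = V := by
      ext x
      exact ⟨fun ⟨y, hy, h⟩ => h ▸ hy, fun hx => ⟨x, hx, rfl⟩⟩
    rw [this]
    exact hV
  | cons a s ih =>
    have h1 := OX_step (P := P) a
    have hmaps : ∀ x ∈ {x : E | 1 / 2 < ‖x‖}, P.ctr (a + 1) + nv x ∈ (reg s : Set E) := by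
      intro x hx
      cases s with
      | nil => exact mem_univ _
      | cons b s =>
        have := ball_norm (step_ball (P := P) (a := a) hx)
        show 1 / 2 < ‖P.ctr (a + 1) + nv x‖
        linarith
    refine ⟨h1.op, ?_, ?_, ?_⟩
    · exact ih.cont.comp h1.cont hmaps
    · intro x hx y hy h
      exact h1.inj hx hy (ih.inj (hmaps x hx) (hmaps y hy) h)
    · intro V hV hVo
      have h2 := h1.img V hV hVo
      have h3 := ih.img _ (by rintro _ ⟨x, hx, rfl⟩; exact hmaps x (hV hx)) h2
      convert h3 using 1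
      rw [image_image]
      rfl

/-- The relation between coordinates of the same point. -/
theorem dev_rel {z : MT P T} {s t : List ℕ} {x y : E} (h : rep z s x) (h' : rep z t y) :
    dev P s x = dev P t y := by
  rcases rep_cases h h' with ⟨rfl, rfl⟩ | ⟨a, rfl, h3, rfl⟩ | ⟨a, rfl, h3, rfl⟩
  · rfl
  · show dev P s x = dev P s (P.ctr (a + 1) + nv (nv (x - P.ctr (a + 1))))
    rw [nv_nv (ann_ne h3.1), add_sub_cancel]
  · show dev P t (P.ctr (a + 1) + nv x) = _
    rw [add_comm]

/-- The developed point. -/
noncomputable def devR (z : MT P T) : E :=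
  dev P (rep_exists z).choose (rep_exists z).choose_spec.choose

theorem devR_eq {z : MT P T} {s : List ℕ} {x : E} (h : rep z s x) : devR z = dev P s x :=
  dev_rel (rep_exists z).choose_spec.choose_spec h

theorem key_inj (hT : IsTree T) : ∀ (s' : List ℕ) (r : List ℕ) (x y : E) (z w : MT P T),
    rep z (s' ++ r) x → rep w r y → dev P s' x = y → z = w := by
  intro s'
  induction s' using List.reverseRecOn with
  | nil =>
    intro r x y z w hz hw h
    have h' : x = y := h
    subst h'
    exact rep_eq hz hw
  | append_singleton s a ih =>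
    intro r x y z w hz hw h
    have hx := (rep_dm hz)
    have hxr : 1 / 2 < ‖x‖ := hx.2.1 (by simp)
    have hT2 : ∀ (u v : List ℕ), u ++ v ∈ T → v ∈ T := by
      intro u v huv
      induction u with
      | nil => exact huv
      | cons b u ih2 => exact ih2 (hT.tail b _ huv)
    have har : a :: r ∈ T := by
      refine hT2 s (a :: r) ?_
      have : s ++ a :: r = s ++ [a] ++ r := by simp
      rw [this]
      exact hx.1
    have hball : ‖y - P.ctr (a + 1)‖ < 2 := by
      rw [← h]
      exact dev_ball s a hxr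
    have hydm := rep_dm hw
    have hann : y ∈ Ann (P.ctr (a + 1)) := ⟨hydm.2.2 a har, hball⟩
    have hw2 := rep_move hw (vv_child.2 ⟨hydm.1, har, hann⟩)
    rw [raw_child] at hw2
    have hval : dev P s x = nv (y - P.ctr (a + 1)) := by
      rw [dev_append] at h
      have h2 : P.ctr (a + 1) + nv (dev P s x) = y := h
      rw [← h2, add_sub_cancel_left, nv_nv (reg_ne (dev_reg s hxr))]
    refine ih (a :: r) x _ z w ?_ hw2 hval
    have : s ++ a :: r = s ++ [a] ++ r := by simp
    rw [this]
    exact hz

theorem dev_rep_inj (hT : IsTree T) : ∀ (n : ℕ) (s t : List ℕ), s.length + t.length ≤ n →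
    ∀ (x y : E) (r : List ℕ) (z w : MT P T), rep z (s ++ r) x → rep w (t ++ r) y →
    dev P s x = dev P t y → z = w := by
  intro n
  induction n with
  | zero =>
    intro s t hst x y r z w hz hw h
    have hs : s = [] := List.length_eq_zero_iff.1 (by omega)
    have ht : t = [] := List.length_eq_zero_iff.1 (by omega)
    subst hs ht
    exact key_inj hT [] r x y z w hz hw h
  | succ n ih =>
    intro s t hst x y r z w hz hw h
    rcases List.eq_nil_or_concat s with rfl | ⟨s', a, rfl⟩
    · exact (key_inj hT t r y x w z hw hz h.symm).symm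
    · rcases List.eq_nil_or_concat t with rfl | ⟨t', b, rfl⟩
      · exact key_inj hT _ r x y z w hz hw h
      · simp only [List.concat_eq_append] at *
        have hx : 1 / 2 < ‖x‖ := (rep_dm hz).2.1 (by simp)
        have hy : 1 / 2 < ‖y‖ := (rep_dm hw).2.1 (by simp)
        have hb1 := dev_ball (P := P) s' a hx
        have hb2 := dev_ball (P := P) t' b hy
        rw [h] at hb1
        have hab : a + 1 = b + 1 := P.ctr_sep hb1 hb2
        have hab' : a = b := by omega
        subst hab'
        rw [dev_append, dev_append] at h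
        have h2 := step_inj (P := P) (a := a) (reg_ne (dev_reg s' hx)) (reg_ne (dev_reg t' hy)) h
        refine ih s' t' ?_ x y (a :: r) z w ?_ ?_ h2
        · simp at hst
          omega
        · have : s' ++ a :: r = s' ++ [a] ++ r := by simp
          rw [this]
          exact hz
        · have : t' ++ a :: r = t' ++ [a] ++ r := by simp
          rw [this]
          exact hw

theorem devR_inj (hT : IsTree T) : Function.Injective (devR : MT P T → E) := by
  intro z w h
  obtain ⟨s, x, hz⟩ := rep_exists z
  obtain ⟨t, y, hw⟩ := rep_exists w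
  rw [devR_eq hz, devR_eq hw] at h
  exact dev_rep_inj hT _ s t le_rfl x y [] z w (by simpa using hz) (by simpa using hw) h

/-- The developed open set. -/
def Om (P : Fr E) (T : Set (List ℕ)) : Set E := {w | ∃ s ∈ T, w ∈ dev P s '' Dm P T s}

theorem devR_range : range (devR : MT P T → E) = Om P T := by
  ext w
  constructor
  · rintro ⟨z, rfl⟩
    obtain ⟨s, x, h⟩ := rep_exists z
    rw [devR_eq h]
    exact ⟨s, (rep_dm h).1, x, (rep_dm h).2, rfl⟩
  · rintro ⟨s, hs, x, hx, rfl⟩
    obtain ⟨z, hz⟩ := exists_pt (P := P) hs hx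
    exact ⟨z, devR_eq hz⟩

theorem devR_open (hT : IsTree T) : IsOpenEmbedding (devR : MT P T → E) := by
  refine .of_continuous_injective_isOpenMap ?_ (devR_inj hT) ?_
  · rw [continuous_def]
    intro A hA
    rw [Pool.Agent.TH227.CM.Code.isOpen_iff]
    intro i
    have hD : (tcode P T).V i i = {x | en i ∈ T ∧ x ∈ Dm P T (en i)} := by
      ext x
      show x ∈ VV P T (en i) (en i) ↔ _
      exact vv_self
    by_cases hi : en i ∈ T
    · have h1 := ((OX_dev (P := P) (en i)).mono dm_reg (dm_open (P := P) (T := T) (en i))).cont.isOpen_inter_preimage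
        (dm_open (en i)) hA
      convert h1 using 1
      ext x
      constructor
      · rintro ⟨h, hx⟩
        have h' := h
        rw [hD] at h'
        refine ⟨h'.2, ?_⟩
        have hr : rep ((tcode P T).mk' i ⟨x, h⟩) (en i) x := by
          unfold rep
          rw [Equiv.symm_apply_apply]
          exact Pool.Agent.TH227.CM.mem_cls_self h
        have h2 : devR ((tcode P T).mk' i ⟨x, h⟩) ∈ A := hx
        rw [devR_eq hr] at h2
        exact h2
      · rintro ⟨h, hx⟩
        have h' : x ∈ (tcode P T).V i i := by rw [hD]; exact ⟨hi, h⟩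
        refine ⟨h', ?_⟩
        have hr : rep ((tcode P T).mk' i ⟨x, h'⟩) (en i) x := by
          unfold rep
          rw [Equiv.symm_apply_apply]
          exact Pool.Agent.TH227.CM.mem_cls_self h'
        show devR ((tcode P T).mk' i ⟨x, h'⟩) ∈ A
        rw [devR_eq hr]
        exact hx
    · have : {x : E | ∃ h : x ∈ (tcode P T).V i i, (tcode P T).mk' i ⟨x, h⟩ ∈ (devR : MT P T → E) ⁻¹' A} = ∅ := by
        rw [eq_empty_iff_forall_notMem]
        rintro x ⟨h, _⟩
        rw [hD] at h
        exact hi h.1
      rw [this]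
      exact isOpen_empty
  · intro W hW
    rw [Pool.Agent.TH227.CM.Code.isOpen_iff] at hW
    have h1 : (devR : MT P T → E) '' W = ⋃ i, dev P (en i) ''
        {x : E | ∃ h : x ∈ (tcode P T).V i i, (tcode P T).mk' i ⟨x, h⟩ ∈ W} := by
      ext w
      rw [mem_iUnion]
      constructor
      · rintro ⟨z, hz, rfl⟩
        obtain ⟨s, x, h⟩ := rep_exists z
        have h2 : (en.symm s, x) ∈ z.val := h
        have h3 := (Pool.Agent.TH227.CM.mem_iff z.mem _).1 h2
        refine ⟨en.symm s, x, ⟨h3.1, ?_⟩, ?_⟩
        · have : (tcode P T).mk' (en.symm s) ⟨x, h3.1⟩ = z :=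
            Pool.Agent.TH227.CM.Code.Pts.ext h3.2.symm
          rw [this]
          exact hz
        · rw [devR_eq h, Equiv.apply_symm_apply]
      · rintro ⟨i, x, ⟨h, hx⟩, rfl⟩
        refine ⟨_, hx, ?_⟩
        have hr : rep ((tcode P T).mk' i ⟨x, h⟩) (en i) x := by
          unfold rep
          rw [Equiv.symm_apply_apply]
          exact Pool.Agent.TH227.CM.mem_cls_self h
        exact devR_eq hr
    rw [h1]
    refine isOpen_iUnion fun i => (OX_dev (P := P) (en i)).img _ ?_ (hW i)
    rintro x ⟨h, _⟩
    have h2 : x ∈ VV P T (en i) (en i) := h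
    exact dm_reg (vv_self.1 h2).2

/-- The manifold of a tree is homeomorphic to the developed open set. -/
noncomputable def devHomeo (hT : IsTree T) : MT P T ≃ₜ Om P T :=
  (devR_open hT).toIsEmbedding.toHomeomorph.trans (Homeomorph.setCongr devR_range)

theorem Om_open (hT : IsTree T) : IsOpen (Om P T) := by
  rw [← devR_range]
  exact (devR_open hT).isOpen_range

end Pool.Agent.H655.OS
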