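import Mathlib

/-!
Open subsets of the real line are determined up to homeomorphism by the number of components.
-/

open Set Filter Topology

namespace Pool.Agent.H655.OS

/-- Gluing homeomorphisms along partitions into open sets. -/
theorem glue_homeo {X X' I I' : Type} [TopologicalSpace X] [TopologicalSpace X']
    (p : X → I) (p' : X' → I') (hp : ∀ i, IsOpen (p ⁻¹' {i})) (hp' : ∀ i, IsOpen (p' ⁻¹' {i}))
    (σ : I ≃ I') (h : I → X → X') (g : I → X' → X)
    (hc : ∀ i, ContinuousOn (h i) (p ⁻¹' {i})) (gc : ∀ i, ContinuousOn (g i) (p' ⁻¹' {σ i}))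
    (hm : ∀ i x, p x = i → p' (h i x) = σ i ∧ g i (h i x) = x)
    (gm : ∀ i y, p' y = σ i → p (g i y) = i ∧ h i (g i y) = y) : Nonempty (X ≃ₜ X') := by
  refine ⟨⟨⟨fun x => h (p x) x, fun y => g (σ.symm (p' y)) y, ?_, ?_⟩, ?_, ?_⟩⟩
  · intro x
    have h1 := hm (p x) x rfl
    show g (σ.symm (p' (h (p x) x))) (h (p x) x) = x
    rw [h1.1, σ.symm_apply_apply]
    exact h1.2
  · intro y
    have h1 := gm (σ.symm (p' y)) y (by rw [σ.apply_symm_apply])
    show h (p (g (σ.symm (p' y)) y)) (g (σ.symm (p' y)) y) = y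
    rw [h1.1]
    exact h1.2
  · rw [continuous_iff_continuousAt]
    intro x
    have h1 : ContinuousAt (h (p x)) x := (hc (p x)).continuousAt ((hp (p x)).mem_nhds rfl)
    refine h1.congr ?_
    filter_upwards [(hp (p x)).mem_nhds rfl] with y hy
    have hy' : p y = p x := hy
    show h (p x) y = h (p y) y
    rw [hy']
  · rw [continuous_iff_continuousAt]
    intro y
    have h1 : ContinuousAt (g (σ.symm (p' y))) y :=
      (gc (σ.symm (p' y))).continuousAt ((hp' _).mem_nhds (by simp))
    refine h1.congr ?_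
    filter_upwards [(hp' (p' y)).mem_nhds rfl] with z hz
    have hz' : p' z = p' y := hz
    show g (σ.symm (p' y)) z = g (σ.symm (p' z)) z
    rw [hz']

/-- A bounded nonempty open connected set of reals is an interval, and is the image of the line. -/
theorem exists_line {C : Set ℝ} (ho : IsOpen C) (hc : IsPreconnected C) (hne : C.Nonempty)
    (hb : Bornology.IsBounded C) : ∃ f g : ℝ → ℝ, Continuous f ∧ ContinuousOn g C ∧
      (∀ x, f x ∈ C ∧ g (f x) = x) ∧ ∀ y ∈ C, f (g y) = y := by
  have hbb : BddBelow C := hb.bddBelow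
  have hba : BddAbove C := hb.bddAbove
  have hC : C = Ioo (sInf C) (sSup C) := by
    apply Subset.antisymm
    · intro x hx
      obtain ⟨ε, hε, hball⟩ := Metric.isOpen_iff.1 ho x hx
      have h1 : x - ε / 2 ∈ C := hball (by
        rw [Metric.mem_ball, Real.dist_eq]
        have : x - ε / 2 - x = -(ε / 2) := by ring
        rw [this, abs_neg, abs_of_pos (by linarith)]
        linarith)
      have h2 : x + ε / 2 ∈ C := hball (by
        rw [Metric.mem_ball, Real.dist_eq]
        have : x + ε / 2 - x = ε / 2 := by ring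
        rw [this, abs_of_pos (by linarith)]
        linarith)
      have h3 := csInf_le hbb h1
      have h4 := le_csSup hba h2
      exact ⟨by linarith, by linarith⟩
    · exact IsConnected.Ioo_csInf_csSup_subset ⟨hne, hc⟩ hbb hba
  obtain ⟨x₀, hx₀⟩ := hne
  have hlt : sInf C < sSup C := by
    rw [hC] at hx₀
    exact hx₀.1.trans hx₀.2
  have hC2 : C = Metric.ball ((sInf C + sSup C) / 2) ((sSup C - sInf C) / 2) := by
    rw [← Real.Ioo_eq_ball]
    exact hC
  set c := (sInf C + sSup C) / 2
  set r := (sSup C - sInf C) / 2 with hr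
  have hr0 : 0 < r := by
    rw [hr]
    linarith
  set e := OpenPartialHomeomorph.univBall c r with he
  have hs : e.source = univ := OpenPartialHomeomorph.univBall_source c r
  have ht : e.target = C := by
    rw [hC2]
    exact OpenPartialHomeomorph.univBall_target c hr0
  refine ⟨e, e.symm, ?_, ?_, ?_, ?_⟩
  · rw [← continuousOn_univ, ← hs]
    exact e.continuousOn
  · rw [← ht]
    exact e.continuousOn_symm
  · intro x
    have hx : x ∈ e.source := by rw [hs]; trivial
    refine ⟨?_, e.left_inv hx⟩
    rw [← ht]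
    exact e.map_source hx
  · intro y hy
    rw [← ht] at hy
    exact e.right_inv hy

/-- The set of the components. -/
def Cps (U : Set ℝ) : Set (Set ℝ) := {C | ∃ x ∈ U, C = connectedComponentIn U x}

theorem Cps_prop {U : Set ℝ} (hU : IsOpen U) (hb : Bornology.IsBounded U) (C : Cps U) :
    IsOpen (C : Set ℝ) ∧ IsPreconnected (C : Set ℝ) ∧ (C : Set ℝ).Nonempty ∧
      Bornology.IsBounded (C : Set ℝ) ∧ (C : Set ℝ) ⊆ U := by
  obtain ⟨C, x, hx, rfl⟩ := C
  exact ⟨hU.connectedComponentIn, isPreconnected_connectedComponentIn,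
    ⟨x, mem_connectedComponentIn hx⟩, hb.subset (connectedComponentIn_subset U x),
    connectedComponentIn_subset U x⟩

theorem Cps_countable {U : Set ℝ} (hU : IsOpen U) : (Cps U).Countable := by
  refine Set.PairwiseDisjoint.countable_of_isOpen (ι := Set ℝ) (s := id) (a := Cps U) ?_ ?_ ?_
  · rintro _ ⟨x, hx, rfl⟩ _ ⟨y, hy, rfl⟩ hne
    rw [Function.onFun, Set.disjoint_left]
    intro z hz hz'
    apply hne
    show connectedComponentIn U x = connectedComponentIn U y
    rw [connectedComponentIn_eq hz, connectedComponentIn_eq hz']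
  · rintro _ ⟨x, hx, rfl⟩
    exact hU.connectedComponentIn
  · rintro _ ⟨x, hx, rfl⟩
    exact ⟨x, mem_connectedComponentIn hx⟩

/-- The component of a point. -/
def cmp (U : Set ℝ) (x : U) : Cps U := ⟨connectedComponentIn U x, x, x.2, rfl⟩

theorem cmp_iff {U : Set ℝ} (x : U) (C : Cps U) : cmp U x = C ↔ (x : ℝ) ∈ (C : Set ℝ) := by
  obtain ⟨C, y, hy, rfl⟩ := C
  constructor
  · intro h
    have h1 : connectedComponentIn U x = connectedComponentIn U y := congrArg Subtype.val h
    show (x : ℝ) ∈ connectedComponentIn U y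
    rw [← h1]
    exact mem_connectedComponentIn x.2
  · intro h
    have h1 : (x : ℝ) ∈ connectedComponentIn U y := h
    apply Subtype.ext
    exact (connectedComponentIn_eq h1).symm

/-- Bounded open sets with the same number of components are homeomorphic. -/
theorem open_homeo {U U' : Set ℝ} (hU : IsOpen U) (hU' : IsOpen U') (hb : Bornology.IsBounded U)
    (hb' : Bornology.IsBounded U') (σ : Cps U ≃ Cps U') : Nonempty (U ≃ₜ U') := by
  classical
  have h1 := fun C : Cps U => exists_line (Cps_prop hU hb C).1 (Cps_prop hU hb C).2.1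
    (Cps_prop hU hb C).2.2.1 (Cps_prop hU hb C).2.2.2.1
  have h2 := fun C : Cps U' => exists_line (Cps_prop hU' hb' C).1 (Cps_prop hU' hb' C).2.1
    (Cps_prop hU' hb' C).2.2.1 (Cps_prop hU' hb' C).2.2.2.1
  choose f g f1 f2 f3 f4 using h1
  choose f' g' f1' f2' f3' f4' using h2
  have hsub := fun C : Cps U => (Cps_prop hU hb C).2.2.2.2
  have hsub' := fun C : Cps U' => (Cps_prop hU' hb' C).2.2.2.2
  refine glue_homeo (cmp U) (cmp U') ?_ ?_ σ
    (fun C x => ⟨f' (σ C) (g C x), hsub' _ (f3' (σ C) (g C x)).1⟩)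
    (fun C y => ⟨f C (g' (σ C) y), hsub _ (f3 C (g' (σ C) y)).1⟩) ?_ ?_ ?_ ?_
  · intro C
    have : cmp U ⁻¹' {C} = Subtype.val ⁻¹' (C : Set ℝ) := by
      ext x
      exact cmp_iff x C
    rw [this]
    exact (Cps_prop hU hb C).1.preimage continuous_subtype_val
  · intro C
    have : cmp U' ⁻¹' {C} = Subtype.val ⁻¹' (C : Set ℝ) := by
      ext x
      exact cmp_iff x C
    rw [this]
    exact (Cps_prop hU' hb' C).1.preimage continuous_subtype_val
  · intro C
    rw [continuousOn_iff_continuous_domRestrict, continuous_induced_rng]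
    have h3 : ContinuousOn (fun x : U => g C x) (cmp U ⁻¹' {C}) := by
      refine (f2 C).comp continuous_subtype_val.continuousOn ?_
      intro x hx
      exact (cmp_iff x C).1 hx
    have h4 := (f1' (σ C)).comp_continuousOn h3
    exact continuousOn_iff_continuous_domRestrict.1 h4
  · intro C
    rw [continuousOn_iff_continuous_domRestrict, continuous_induced_rng]
    have h3 : ContinuousOn (fun x : U' => g' (σ C) x) (cmp U' ⁻¹' {σ C}) := by
      refine (f2' (σ C)).comp continuous_subtype_val.continuousOn ?_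
      intro x hx
      exact (cmp_iff x (σ C)).1 hx
    have h4 := (f1 C).comp_continuousOn h3
    exact continuousOn_iff_continuous_domRestrict.1 h4
  · intro C x hx
    rw [cmp_iff] at hx
    refine ⟨(cmp_iff _ _).2 (f3' (σ C) (g C x)).1, ?_⟩
    apply Subtype.ext
    show f C (g' (σ C) (f' (σ C) (g C x))) = x
    rw [(f3' (σ C) _).2, f4 C _ hx]
  · intro C y hy
    rw [cmp_iff] at hy
    refine ⟨(cmp_iff _ _).2 (f3 C (g' (σ C) y)).1, ?_⟩
    apply Subtype.ext
    show f' (σ C) (g C (f C (g' (σ C) y))) = y
    rw [(f3 C _).2, f4' (σ C) _ hy]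

theorem equiv_of_card {A B : Type} [Countable A] [Countable B] (h : ENat.card A = ENat.card B) :
    Nonempty (A ≃ B) := by
  rcases finite_or_infinite A with hA | hA
  · rcases finite_or_infinite B with hB | hB
    · have h1 : Nat.card A = Nat.card B := by
        rw [ENat.card_eq_coe_natCard, ENat.card_eq_coe_natCard] at h
        exact_mod_cast h
      exact Finite.card_eq.1 h1
    · rw [ENat.card_eq_top_of_infinite (α := B), ENat.card_eq_coe_natCard] at h
      exact absurd h (ENat.coe_ne_top _)
  · rcases finite_or_infinite B with hB | hB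
    · rw [ENat.card_eq_top_of_infinite (α := A), ENat.card_eq_coe_natCard] at h
      exact absurd h.symm (ENat.coe_ne_top _)
    · exact nonempty_equiv_of_countable

end Pool.Agent.H655.OS
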