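import Pool.Agent.H655.OS.Sub
import Pool.Agent.H655.OS.Dev
import Pool.Agent.H655.TM.Red

/-!
Coding of countable structures by open subsets of spheres.
-/

open Set Filter Topology TopologicalSpace
open scoped MeasureTheory

namespace Pool.Agent.H655.OS

open Pool.Agent.TH227.TM Pool.Agent.H655.MC

/-- The Euclidean space of dimension `m`. -/
abbrev EE (m : ℕ) : Type := EuclideanSpace ℝ (Fin m)

/-- The sphere of dimension `m`. -/
abbrev SS (m : ℕ) : Type := Metric.sphere (0 : EuclideanSpace ℝ (Fin (m + 1))) 1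

instance factRank (m : ℕ) : Fact (Module.finrank ℝ (EuclideanSpace ℝ (Fin (m + 1))) = m + 1) :=
  ⟨by simp⟩

/-- The pole. -/
noncomputable def pole (m : ℕ) : SS m := ⟨EuclideanSpace.single 0 1, by simp⟩

/-- The inverse of the stereographic projection. -/
noncomputable def sg (m : ℕ) : EE m → SS m := (stereographic' m (pole m)).symm

theorem sg_open (m : ℕ) : IsOpenEmbedding (sg m) :=
  (stereographic' m (pole m)).symm.isOpenEmbedding (by simp)

theorem sg_range (m : ℕ) : range (sg m) = {pole m}ᶜ := by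
  have h1 : (stereographic' m (pole m)).symm '' (stereographic' m (pole m)).target =
    (stereographic' m (pole m)).source := (stereographic' m (pole m)).symm_image_target_eq_source
  rw [stereographic'_target, stereographic'_source, image_univ] at h1
  exact h1

variable {m : ℕ} (P : Fr (EE m))

/-- The open subset of the sphere given by a tree. -/
def OT (T : Set (List ℕ)) : Set (SS m) := sg m '' Om P T

/-- The complement, for a tree. -/
def KT {T : Set (List ℕ)} (hT : IsTree T) : NonemptyCompacts (SS m) where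
  carrier := (OT P T)ᶜ
  isCompact' := by
    have h1 : IsOpen (OT P T) := (sg_open m).isOpenMap _ (Om_open hT)
    exact h1.isClosed_compl.isCompact
  nonempty' := by
    refine ⟨pole m, ?_⟩
    rintro ⟨x, _, hx⟩
    have h1 : pole m ∈ range (sg m) := ⟨x, hx⟩
    rw [sg_range] at h1
    exact h1 rfl

theorem KT_coe {T : Set (List ℕ)} (hT : IsTree T) : ((KT P hT : NonemptyCompacts (SS m)) : Set (SS m))ᶜ =
    OT P T := compl_compl _

theorem KT_homeo {T : Set (List ℕ)} (hT : IsTree T) :
    Nonempty (MT P T ≃ₜ (((KT P hT : NonemptyCompacts (SS m)) : Set (SS m))ᶜ : Set (SS m))) := by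
  rw [KT_coe]
  exact ⟨(devHomeo hT).trans (((sg_open m).toIsEmbedding.homeomorphImage (Om P T)))⟩

/-- The compact set coding a structure. -/
def KR (R : ℕ → ℕ → ℕ → Prop) : NonemptyCompacts (SS m) := KT P (CT_tree (kap R))

theorem KR_iff (R R' : ℕ → ℕ → ℕ → Prop) :
    Nonempty (((KR P R : Set (SS m))ᶜ : Set (SS m)) ≃ₜ ((KR P R' : Set (SS m))ᶜ : Set (SS m))) ↔
      ∃ σ : ℕ ≃ ℕ, ∀ j a b, R j a b ↔ R' j (σ a) (σ b) := by
  obtain ⟨f⟩ := KT_homeo P (CT_tree (kap R))
  obtain ⟨f'⟩ := KT_homeo P (CT_tree (kap R'))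
  constructor
  · rintro ⟨D⟩
    obtain ⟨H⟩ := path_homeo (P := P) (P' := P) (CT_tree (kap R)) (CT_tree (kap R'))
      ((f.trans D).trans f'.symm)
    exact iso_of_homeo H
  · intro h
    obtain ⟨D⟩ := (mcode_iff P R R').2 h
    exact ⟨(f.symm.trans D.toHomeomorph).trans f'⟩

/-! ### Measurability -/

theorem meas_cpt (C : Set (SS m)) (hC : IsCompact C) :
    MeasurableSet {R : ℕ → ℕ → ℕ → Prop | C ⊆ OT P (CT (kap R))} := by
  classical
  have hpc : ∀ (R : ℕ → ℕ → ℕ → Prop) (s : List ℕ), IsOpen (sg m '' (dev P s '' Dm P (CT (kap R)) s)) :=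
    fun R s => (sg_open m).isOpenMap _
      ((OX_dev (P := P) s).img _ dm_reg (dm_open (P := P) (T := CT (kap R)) s))
  have h1 : {R : ℕ → ℕ → ℕ → Prop | C ⊆ OT P (CT (kap R))} =
      ⋃ F : Finset (List ℕ), {R : ℕ → ℕ → ℕ → Prop | ∀ x ∈ C, ∃ s ∈ F, s ∈ CT (kap R) ∧
        x ∈ sg m '' (dev P s '' Dm P (CT (kap R)) s)} := by
    ext R
    simp only [mem_iUnion, mem_ofPred_eq]
    constructor
    · intro h
      obtain ⟨F, hF⟩ := hC.elim_finite_subcover
        (fun s : List ℕ => if s ∈ CT (kap R) then sg m '' (dev P s '' Dm P (CT (kap R)) s) else ∅)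
        (by
          intro s
          by_cases hs : s ∈ CT (kap R)
          · simp only [if_pos hs]
            exact hpc R s
          · simp only [if_neg hs]
            exact isOpen_empty)
        (by
          intro x hx
          obtain ⟨w, ⟨s, hs, hw⟩, rfl⟩ := h hx
          refine mem_iUnion.2 ⟨s, ?_⟩
          simp only [if_pos hs]
          exact ⟨w, hw, rfl⟩)
      refine ⟨F, fun x hx => ?_⟩
      obtain ⟨s, hs⟩ := mem_iUnion.1 (hF hx)
      obtain ⟨hsF, hs⟩ := mem_iUnion.1 hs
      by_cases hsT : s ∈ CT (kap R)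
      · simp only [if_pos hsT] at hs
        exact ⟨s, hsF, hsT, hs⟩
      · simp only [if_neg hsT] at hs
        exact hs.elim
    · rintro ⟨F, hF⟩ x hx
      obtain ⟨s, _, hs, w, hw, rfl⟩ := hF x hx
      exact ⟨w, ⟨s, hs, hw⟩, rfl⟩
  rw [h1]
  refine MeasurableSet.iUnion fun F => ?_
  have hmeas : Measurable (fun R : ℕ → ℕ → ℕ → Prop => fun s : F => kind (kap R) s.1) :=
    measurable_pi_lambda _ fun s => meas_kind s.1
  refine meas_dep hmeas (Q := fun R => ∀ x ∈ C, ∃ s ∈ F, s ∈ CT (kap R) ∧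
        x ∈ sg m '' (dev P s '' Dm P (CT (kap R)) s)) ?_
  intro R R' hRR h x hx
  obtain ⟨s, hsF, hs, hsx⟩ := h x hx
  have hk : kind (kap R) s = kind (kap R') s := congrFun hRR ⟨s, hsF⟩
  have hD : Dm P (CT (kap R)) s = Dm P (CT (kap R')) s := by
    ext x
    unfold Dm
    simp only [mem_ofPred_eq, child_iff hk]
  refine ⟨s, hsF, ?_, ?_⟩
  · show kind (kap R') s ≠ Kd.out
    rw [← hk]
    exact hs
  · rw [← hD]
    exact hsx

theorem meas_KR : Measurable[_, borel _] (KR P : (ℕ → ℕ → ℕ → Prop) → NonemptyCompacts (SS m)) := by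
  have hcoe : ∀ R, ((KR P R : NonemptyCompacts (SS m)) : Set (SS m)) = (OT P (CT (kap R)))ᶜ :=
    fun R => rfl
  refine meas_NC ?_ ?_
  · intro O hO
    have h1 := meas_cpt P Oᶜ hO.isClosed_compl.isCompact
    convert h1 using 1
    ext R
    simp only [mem_ofPred_eq]
    rw [hcoe, compl_subset_comm]
  · intro O hO
    obtain ⟨F, hF1, hF2, hF3, _⟩ := hO.exists_iUnion_isClosed
    have h1 : {R | ((KR P R : Set (SS m)) ∩ O).Nonempty} =
        (⋂ n, {R : ℕ → ℕ → ℕ → Prop | F n ⊆ OT P (CT (kap R))})ᶜ := by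
      ext R
      simp only [mem_ofPred_eq, mem_compl_iff, mem_iInter]
      rw [hcoe]
      constructor
      · rintro ⟨x, hx, hxO⟩ h
        rw [← hF3] at hxO
        obtain ⟨n, hn⟩ := mem_iUnion.1 hxO
        exact hx (h n hn)
      · intro h
        by_contra hne
        rw [not_nonempty_iff_eq_empty] at hne
        apply h
        intro n x hx
        by_contra hx2
        have : x ∈ (OT P (CT (kap R)))ᶜ ∩ O := ⟨hx2, hF2 n hx⟩
        rw [hne] at this
        exact this
    rw [h1]
    exact (MeasurableSet.iInter fun n => meas_cpt P (F n) (hF1 n).isCompact).compl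

end Pool.Agent.H655.OS
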