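import Pool.Agent.H655.MC.Atlas
import Pool.Agent.H655.CM.Coding

/-!
Codes of the complements of compact subsets of a fixed manifold.
-/

open Set Filter Topology TopologicalSpace
open scoped MeasureTheory

namespace Pool.Agent.H655.OS

open Pool.Agent.H655.CM Pool.Agent.H655.MC

variable {E : Type} [NormedAddCommGroup E] [NormedSpace ℝ E] [FiniteDimensional ℝ E]

theorem OX_symm {N : Type} [TopologicalSpace N] (e : OpenPartialHomeomorph N E) {U : Set E}
    (hU : IsOpen U) (hUt : U ⊆ e.target) : OX e.symm U := by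
  refine ⟨hU, e.continuousOn_symm.mono hUt, ?_, ?_⟩
  · intro x hx y hy h
    rw [← e.right_inv (hUt hx), h, e.right_inv (hUt hy)]
  · intro V hV hVo
    exact e.isOpen_image_symm_of_subset_target hVo (hV.trans hUt)

/-- A countable family of charts of a manifold, which is a basis. -/
theorem exists_charts (N : Type) [TopologicalSpace N] [ChartedSpace E N] [T2Space N]
    [SecondCountableTopology N] [Nonempty N] :
    ∃ (θ : ℕ → E → N) (U : ℕ → Set E) (C : ℕ → Set N), (∀ k, OX (θ k) (U k)) ∧
      (∀ k, IsCompact (C k)) ∧ (∀ k, θ k '' U k ⊆ C k) ∧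
      ∀ O : Set N, IsOpen O → ∀ x ∈ O, ∃ k, x ∈ θ k '' U k ∧ C k ⊆ O := by
  classical
  obtain ⟨s, hs, hcov⟩ := TopologicalSpace.countable_cover_nhds
    (f := fun x : N => (chartAt E x).source) (fun x => chart_source_mem_nhds E x)
  have hne : s.Nonempty := by
    by_contra h
    rw [not_nonempty_iff_eq_empty] at h
    rw [h] at hcov
    obtain ⟨z⟩ := (inferInstance : Nonempty N)
    have : z ∈ (univ : Set N) := trivial
    rw [← hcov] at this
    simp at this
  obtain ⟨p, rfl⟩ := hs.exists_eq_range hne
  obtain ⟨g, hg⟩ := exists_surjective_nat (ℕ × ℕ × ℕ)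
  set U : ℕ → Set E := fun k => if (cb (g k) : Set E) ⊆ (chartAt E (p (g k).1)).target then
    ob (g k) else ∅ with hU
  refine ⟨fun k => (chartAt E (p (g k).1)).symm, U, fun k =>
    if (cb (g k) : Set E) ⊆ (chartAt E (p (g k).1)).target then
    (chartAt E (p (g k).1)).symm '' cb (g k) else ∅, ?_, ?_, ?_, ?_⟩
  · intro k
    by_cases h : (cb (g k) : Set E) ⊆ (chartAt E (p (g k).1)).target
    · have : U k = ob (g k) := if_pos h
      rw [this]
      exact OX_symm _ (ob_open _) ((ob_sub_cb _).trans h)
    · have : U k = ∅ := if_neg h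
      rw [this]
      exact OX_symm _ isOpen_empty (empty_subset _)
  · intro k
    by_cases h : (cb (g k) : Set E) ⊆ (chartAt E (p (g k).1)).target
    · simp only [if_pos h]
      exact (cb_compact _).image_of_continuousOn
        ((chartAt E (p (g k).1)).continuousOn_symm.mono h)
    · simp only [if_neg h]
      exact isCompact_empty
  · intro k
    by_cases h : (cb (g k) : Set E) ⊆ (chartAt E (p (g k).1)).target
    · have : U k = ob (g k) := if_pos h
      simp only [if_pos h, this]
      exact image_mono (ob_sub_cb _)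
    · have : U k = ∅ := if_neg h
      rw [this]
      simp
  · intro O hO x hx
    have hxu : x ∈ (univ : Set N) := trivial
    rw [← hcov] at hxu
    simp only [mem_iUnion] at hxu
    obtain ⟨_, ⟨i, rfl⟩, hxi⟩ := hxu
    set e := chartAt E (p i) with he
    have h1 : IsOpen (e.target ∩ e.symm ⁻¹' O) := e.isOpen_inter_preimage_symm hO
    have h2 : e x ∈ e.target ∩ e.symm ⁻¹' O := by
      refine ⟨e.map_source hxi, ?_⟩
      show e.symm (e x) ∈ O
      rw [e.left_inv hxi]
      exact hx
    obtain ⟨b, hb1, hb2, hb3⟩ := exists_rb i (h1.mem_nhds h2)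
    obtain ⟨k, rfl⟩ := hg b
    subst hb1
    have h : (cb (g k) : Set E) ⊆ (chartAt E (p (g k).1)).target := fun y hy => (hb3 hy).1
    refine ⟨k, ?_, ?_⟩
    · have : U k = ob (g k) := if_pos h
      rw [this]
      exact ⟨_, hb2, e.left_inv hxi⟩
    · simp only [if_pos h]
      rintro _ ⟨y, hy, rfl⟩
      exact (hb3 hy).2

section code

variable {N : Type} [TopologicalSpace N] [T2Space N]
variable (θ : ℕ → E → N) (U : ℕ → Set E) (C : ℕ → Set N)

open Classical in
/-- The chart domains which avoid the compact set. -/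
noncomputable def UK (K : Set N) (k : ℕ) : Set E := if Disjoint (C k) K then U k else ∅

omit [FiniteDimensional ℝ E] [T2Space N] in
theorem OX_UK {θ : ℕ → E → N} {U : ℕ → Set E} {C : ℕ → Set N} (h : ∀ k, OX (θ k) (U k))
    (K : Set N) (k : ℕ) : OX (θ k) (UK U C K k) := by
  unfold UK
  split_ifs with hd
  · exact h k
  · exact (h k).mono (empty_subset _) isOpen_empty

/-- The code of the complement. -/
noncomputable def codeK (h : ∀ k, OX (θ k) (U k)) (K : NonemptyCompacts N) : Code E :=
  codeF (UK U C (K : Set N)) θ (OX_UK h K)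

variable {θ U C}

theorem codeK_homeo (h : ∀ k, OX (θ k) (U k)) (hC : ∀ k, θ k '' U k ⊆ C k)
    (hb : ∀ O : Set N, IsOpen O → ∀ x ∈ O, ∃ k, x ∈ θ k '' U k ∧ C k ⊆ O)
    (K : NonemptyCompacts N) :
    Nonempty ((codeK θ U C h K).Pts ≃ₜ ((K : Set N)ᶜ : Set N)) := by
  have h1 : (⋃ i, θ i '' UK U C (K : Set N) i) = (K : Set N)ᶜ := by
    ext x
    rw [mem_iUnion]
    constructor
    · rintro ⟨i, hi⟩ hK
      unfold UK at hi
      split_ifs at hi with hd
      · exact Set.disjoint_left.1 hd (hC i hi) hK
      · simp at hi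
    · intro hx
      obtain ⟨k, hk1, hk2⟩ := hb _ K.isCompact.isClosed.isOpen_compl x hx
      refine ⟨k, ?_⟩
      unfold UK
      rw [if_pos (Set.disjoint_left.2 fun y hy hyK => hk2 hy hyK)]
      exact hk1
  exact ⟨codeF_homeo.trans (Homeomorph.setCongr h1)⟩

theorem meas_codeK (h : ∀ k, OX (θ k) (U k)) (hC : ∀ k, IsCompact (C k)) :
    Measurable[borel _, measC] (codeK θ U C h) := by
  classical
  have hm : ∀ i j, MeasurableSet[borel (NonemptyCompacts N)]
      {K : NonemptyCompacts N | Disjoint (C i) (K : Set N) ∧ Disjoint (C j) (K : Set N)} := by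
    intro i j
    have h1 : ∀ i, IsOpen {K : NonemptyCompacts N | Disjoint (C i) (K : Set N)} := by
      intro i
      have := NonemptyCompacts.isOpen_subsets_of_isOpen (hC i).isClosed.isOpen_compl
      convert this using 2
      ext K
      rw [subset_compl_iff_disjoint_left]
    borelize (NonemptyCompacts N)
    exact ((h1 i).inter (h1 j)).measurableSet
  have key : ∀ (i j : ℕ) (P : Code E → Prop) (P₁ P₂ : Prop),
      (∀ K : NonemptyCompacts N, (Disjoint (C i) (K : Set N) ∧ Disjoint (C j) (K : Set N)) →
        (P (codeK θ U C h K) ↔ P₁)) →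
      (∀ K : NonemptyCompacts N, ¬ (Disjoint (C i) (K : Set N) ∧ Disjoint (C j) (K : Set N)) →
        (P (codeK θ U C h K) ↔ P₂)) →
      MeasurableSet[borel (NonemptyCompacts N)] {K | P (codeK θ U C h K)} := by
    intro i j P P₁ P₂ h1 h2
    have h3 : {K | P (codeK θ U C h K)} =
        ({K : NonemptyCompacts N | Disjoint (C i) (K : Set N) ∧ Disjoint (C j) (K : Set N)} ∩
          {K | P₁}) ∪
        ({K : NonemptyCompacts N | Disjoint (C i) (K : Set N) ∧ Disjoint (C j) (K : Set N)}ᶜ ∩
          {K | P₂}) := by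
      ext K
      by_cases hK : Disjoint (C i) (K : Set N) ∧ Disjoint (C j) (K : Set N)
      · simp only [mem_ofPred_eq, mem_union, mem_inter_iff, mem_compl_iff, hK, h1 K hK]
        simp
      · simp only [mem_ofPred_eq, mem_union, mem_inter_iff, mem_compl_iff, hK, h2 K hK]
        simp
    rw [h3]
    borelize (NonemptyCompacts N)
    exact ((hm i j).inter (MeasurableSet.const _)).union
      ((hm i j).compl.inter (MeasurableSet.const _))
  refine @measurable_generateFrom _ _ (borel (NonemptyCompacts N)) _ _ ?_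
  rintro A (⟨i, j, S, hS, rfl⟩ | ⟨i, j, x, B, hB, rfl⟩)
  · refine key i j (fun c => S ⊆ c.V i j) (S ⊆ fV U θ i j) (S ⊆ ∅) ?_ ?_
    · intro K hK
      have : (codeK θ U C h K).V i j = fV U θ i j := by
        show fV (UK U C (K : Set N)) θ i j = _
        unfold fV UK
        rw [if_pos hK.1, if_pos hK.2]
      rw [this]
    · intro K hK
      have : (codeK θ U C h K).V i j = ∅ := by
        show fV (UK U C (K : Set N)) θ i j = _
        unfold fV UK
        rw [not_and_or] at hK
        rcases hK with hK | hK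
        · rw [if_neg hK]
          ext x
          simp
        · rw [if_neg hK]
          ext x
          simp
      rw [this]
  · refine key i j (fun c => c.φ i j x ∈ B) (fφ U θ i j x ∈ B) ((0 : E) ∈ B) ?_ ?_
    · intro K hK
      have : (codeK θ U C h K).φ i j x = fφ U θ i j x := by
        show fφ (UK U C (K : Set N)) θ i j x = _
        unfold fφ UK
        simp only [if_pos hK.1, if_pos hK.2]
      rw [this]
    · intro K hK
      have : (codeK θ U C h K).φ i j x = 0 := by
        show fφ (UK U C (K : Set N)) θ i j x = _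
        unfold fφ UK
        rw [not_and_or] at hK
        rcases hK with hK | hK
        · simp only [if_neg hK]
          simp
        · simp only [if_neg hK]
          simp
      rw [this]

end code

/-- Measurability of a map to the hyperspace. -/
theorem meas_NC {Ω N : Type} [MeasurableSpace Ω] [TopologicalSpace N] [SecondCountableTopology N]
    {f : Ω → NonemptyCompacts N}
    (h1 : ∀ O : Set N, IsOpen O → MeasurableSet {ω | (f ω : Set N) ⊆ O})
    (h2 : ∀ O : Set N, IsOpen O → MeasurableSet {ω | ((f ω : Set N) ∩ O).Nonempty}) :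
    Measurable[_, borel _] f := by
  have hb := (isBasis_countableBasis N).nonemptyCompacts
  borelize (NonemptyCompacts N)
  have hgen : borel (NonemptyCompacts N) = _ := hb.borel_eq_generateFrom
  have key : Measurable[_, MeasurableSpace.generateFrom ((fun u : Set (Set N) =>
      {K : NonemptyCompacts N | (K : Set N) ⊆ ⋃₀ u ∧ ∀ U ∈ u, ((K : Set N) ∩ U).Nonempty}) ''
      {u | u.Finite ∧ u.Nonempty ∧ u ⊆ countableBasis N})] f := by
    refine measurable_generateFrom ?_
    rintro _ ⟨u, ⟨hu, -, hub⟩, rfl⟩
    have h3 : f ⁻¹' {K : NonemptyCompacts N | (K : Set N) ⊆ ⋃₀ u ∧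
        ∀ U ∈ u, ((K : Set N) ∩ U).Nonempty} =
        {ω | (f ω : Set N) ⊆ ⋃₀ u} ∩ ⋂ U ∈ u, {ω | ((f ω : Set N) ∩ U).Nonempty} := by
      ext ω
      simp only [mem_preimage, mem_ofPred_eq, mem_inter_iff, mem_iInter]
    rw [h3]
    refine (h1 _ (isOpen_sUnion fun U hU => isOpen_of_mem_countableBasis (hub hU))).inter ?_
    exact MeasurableSet.biInter hu.countable fun U hU =>
      h2 U (isOpen_of_mem_countableBasis (hub hU))
  rw [← hgen] at key
  exact key

end Pool.Agent.H655.OS
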